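import Pool.Agent.V8H73.ND.Glob
import Pool.Agent.TH214.RM.Exq

/-!
MP_602153_ag: regular models, projective and flat over the integers, of smooth projective
hypersurfaces over number fields with nodal reduction, in every degree and every dimension.

Let `X` be a smooth projective hypersurface over a number field `K` such that for every prime `𝔭` of
the ring of integers some integral equation of `X` (in coordinates over `K` which may depend on `𝔭`)
defines a scheme which is regular at its points over `𝔭`, or which is regular at its points over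
`𝔭` except possibly one rational point `P` of the fibre over `𝔭` such that `P` is an ordinary double
point of the fibre (the Hessian matrix of a local equation of the fibre at `P` is invertible). There
is no condition on the power of `𝔭` in the equation at the point `P`. Then `X` has a regular
projective flat model over the integers.
-/

set_option autoImplicit false

open AlgebraicGeometry CategoryTheory CategoryTheory.Limits MvPolynomial

open scoped NumberField

namespace Pool.Agent.Results.MP_602153_ag.NodalReduction

/-- The polynomial in the variables `X j`, `j ≠ s`, obtained from `H` by setting `X s = 1`: the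
equation of the hypersurface `H = 0` in the chart `X s ≠ 0` of the projective space over `R`. -/
noncomputable def dehom {R : Type} [CommRing R] {m : ℕ} (s : Fin m) (H : MvPolynomial (Fin m) R) :
    MvPolynomial {j : Fin m // j ≠ s} R :=
  aeval (fun j => if h : j = s then 1 else X ⟨j, h⟩) H

/-- The ideal `Q` of the polynomial ring over `R` lies over `𝔭`. -/
def LiesAbove {R σ : Type} [CommRing R] (𝔭 : Ideal R) (Q : Ideal (MvPolynomial σ R)) : Prop :=
  ∀ r : R, C r ∈ Q ↔ r ∈ 𝔭

/-- For a prime `Q` of `A`, the element `f` is not in the square of the maximal ideal of the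
localization of `A` at `Q`. -/
def NotInSquare {A : Type} [CommRing A] (Q : Ideal A) (f : A) : Prop :=
  ∀ h, h ∉ Q → h * f ∉ Q ^ 2

/-- The scheme `H = 0` in the projective space over `R` is regular at its points over `𝔭`: for every
chart `s` and every prime `Q` of the polynomial ring of the chart lying over `𝔭` and containing the
equation, the equation is not in the square of the maximal ideal of the localization at `Q`. -/
def IsRegularAt {R : Type} [CommRing R] (𝔭 : Ideal R) {m : ℕ} (H : MvPolynomial (Fin m) R) :
    Prop :=
  ∀ (s : Fin m) (Q : Ideal (MvPolynomial {j : Fin m // j ≠ s} R)), Q.IsPrime →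
    LiesAbove 𝔭 Q → dehom s H ∈ Q → NotInSquare Q (dehom s H)

/-- The polynomial `H (1, x_0, ..., x_(m-1))` in `m` variables: the equation of `H = 0` in the chart
around the point `(1 : 0 : ... : 0)`. -/
noncomputable def firstChart {R : Type} [CommRing R] {m : ℕ} (H : MvPolynomial (Fin (m + 1)) R) :
    MvPolynomial (Fin m) R :=
  aeval (Fin.cases (motive := fun _ => MvPolynomial (Fin m) R) 1 (fun i => X i)) H

/-- The fibre over `𝔭` of the scheme `H = 0` has an ordinary double point at `(1 : 0 : ... : 0)`:
modulo `𝔭` the equation in the chart around this point vanishes to the second order at the point,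
and the determinant of its Hessian matrix at the point is not in `𝔭`. The scheme is regular at all
its other points over `𝔭`. -/
def IsNodalAt {R : Type} [CommRing R] (𝔭 : Ideal R) {m : ℕ} (H : MvPolynomial (Fin (m + 1)) R) :
    Prop :=
  coeff 0 (firstChart H) ∈ 𝔭 ∧
  (∀ i, coeff 0 (pderiv i (firstChart H)) ∈ 𝔭) ∧
  (Matrix.of fun i j => coeff 0 (pderiv i (pderiv j (firstChart H)))).det ∉ 𝔭 ∧
  ∀ (s : Fin (m + 1)) (Q : Ideal (MvPolynomial {j : Fin (m + 1) // j ≠ s} R)), Q.IsPrime →
    LiesAbove 𝔭 Q → dehom s H ∈ Q → NotInSquare Q (dehom s H) ∨ (s = 0 ∧ ∀ j, X j ∈ Q)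

/-- The partial derivatives of `G` have no common zero (over an algebraic closure) but the origin:
every variable has a power in the ideal they generate. -/
def IsSmooth {K : Type} [Field K] {m : ℕ} (G : MvPolynomial (Fin m) K) : Prop :=
  ∀ i, X i ∈ (Ideal.span (Set.range fun j => pderiv j G)).radical

/-- `H` is obtained from `G` by the linear change of coordinates `T` and multiplication with the
scalar `l`. -/
def IsEquation {R K : Type} [CommRing R] [Field K] [Algebra R K] {m : ℕ}
    (G : MvPolynomial (Fin m) K) (H : MvPolynomial (Fin m) R) (l : K)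
    (T : Matrix (Fin m) (Fin m) K) : Prop :=
  map (algebraMap R K) H = C l * aeval (fun i => ∑ j, C (T i j) * X j) G

/-- For every prime `𝔭` a linear change of coordinates over the number field and a scalar turn `G`
into a form with integral coefficients whose hypersurface is regular at its points over `𝔭`, or
regular at these points but one, an ordinary double point of the fibre. -/
def HasRegularOrNodalEquations {K : Type} [Field K] {m : ℕ} (G : MvPolynomial (Fin (m + 1)) K) :
    Prop :=
  ∀ 𝔭 : Ideal (𝓞 K), 𝔭.IsPrime → 𝔭 ≠ ⊥ →
    ∃ (H : MvPolynomial (Fin (m + 1)) (𝓞 K)) (l : K) (T T' : Matrix (Fin (m + 1)) (Fin (m + 1)) K),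
      l ≠ 0 ∧ T * T' = 1 ∧ IsEquation G H l T ∧ (IsRegularAt 𝔭 H ∨ IsNodalAt 𝔭 H)

/-- The dimensions of the local rings of `A` equal the dimensions of their cotangent spaces. -/
def HasRegularLocalRings (A : Type) [CommRing A] : Prop :=
  ∀ p : PrimeSpectrum A, ringKrullDim (Localization.AtPrime p.asIdeal) =
    (((Module.finrank (IsLocalRing.ResidueField (Localization.AtPrime p.asIdeal))
      (IsLocalRing.CotangentSpace (Localization.AtPrime p.asIdeal)) : ℕ) : ℕ∞) : WithBot ℕ∞)

/-- The local rings of the locally Noetherian scheme `Y` are regular. -/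
def IsRegularScheme (Y : Scheme.{0}) : Prop :=
  IsLocallyNoetherian Y ∧
  ∀ U : Y.affineOpens, HasRegularLocalRings (Y.presheaf.obj (Opposite.op U.1))

/-- `Y` is projective over the integers. -/
def IsProjectiveOverInt (Y : Scheme.{0}) : Prop :=
  ∃ (A : Type) (_ : CommRing A) (𝒜 : ℕ → Submodule ℤ A) (_ : GradedAlgebra 𝒜),
    (∀ a ∈ 𝒜 0, ∃ n : ℤ, (n : A) = a) ∧
    (∃ s : Finset A, (∀ a ∈ s, a ∈ 𝒜 1) ∧ Algebra.adjoin ℤ (s : Set A) = ⊤) ∧
    Nonempty (Y ≅ Proj 𝒜)

/-- The generic fibre of `Y` is isomorphic to `V`. -/
def HasGenericFibre (Y V : Scheme.{0}) : Prop :=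
  Nonempty (pullback (specZIsTerminal.from Y)
      (specZIsTerminal.from (Spec (CommRingCat.of ℚ))) ≅ V)

/-- `Y` is an integral regular locally Noetherian scheme, projective and flat over the integers,
with generic fibre `V`. -/
def IsRegularProjectiveFlatModel (V Y : Scheme.{0}) : Prop :=
  IsIntegral Y ∧ IsRegularScheme Y ∧ IsProjectiveOverInt Y ∧ Flat (specZIsTerminal.from Y) ∧
    HasGenericFibre Y V

/-- Every scheme `V` isomorphic to the hypersurface `Proj (K[X] / (G))`, viewed over the rational
numbers, has a regular projective flat model over the integers. -/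
def HypersurfaceHasModel {K : Type} [Field K] {m : ℕ} (G : MvPolynomial (Fin m) K) :
    Prop :=
  ∀ (B : Type) [CommRing B] [Algebra K B]
    (π : MvPolynomial (Fin m) K →ₐ[K] B), Function.Surjective π →
    RingHom.ker π = Ideal.span {G} →
  ∀ (ℬ : ℕ → Submodule K B) [GradedAlgebra ℬ],
    (∀ d, ℬ d = (homogeneousSubmodule (Fin m) K d).map π.toLinearMap) →
  ∀ (V : Scheme.{0}), Nonempty (V ≅ Proj ℬ) → ∃ Y, IsRegularProjectiveFlatModel V Y

/-- Smooth hypersurfaces of degree `d ≥ 2` in projective spaces of dimension at least two over
number fields, which over every prime have an integral equation that is regular or regular outside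
one ordinary double point, have regular projective flat models over the integers. -/
theorem result (K : Type) [Field K] [NumberField K] (n d : ℕ) (hd : 2 ≤ d)
    (G : MvPolynomial (Fin (n + 2 + 1)) K) (hG : G.IsHomogeneous d) (hsm : IsSmooth G)
    (hloc : HasRegularOrNodalEquations G) : HypersurfaceHasModel G := by
  intro B _ _ π hπ hker ℬ _ hℬ V hV
  have hloc' : Pool.Agent.V8H73.ND.LocNode (n := n + 1) (𝓞 K) G := by
    intro 𝔭 hp h0
    obtain ⟨H, l, T, T', hl, hT, hH, hreg⟩ := hloc 𝔭 hp h0
    refine ⟨H, l, T, T', hl, hT, hH, ?_⟩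
    rcases hreg with hreg | ⟨h1, h2, h3, h4⟩
    · exact Or.inl (Pool.Agent.TH214.RM.Reg.crit hreg)
    · refine Or.inr ⟨h1, h2, h3, ?_⟩
      intro s Q hQ hQ1 hQ2
      rcases h4 s Q hQ hQ1 hQ2 with h5 | h5
      · exact Or.inr (Or.inl h5)
      · exact Or.inr (Or.inr h5)
  obtain ⟨Y, hi, hn, hr, hp, hf, hg⟩ :=
    Pool.Agent.V8H73.ND.model_node (n := n + 1) (by omega) G d hd hG hsm hloc' π hπ hker ℬ hℬ V hV
  exact ⟨Y, hi, ⟨hn, hr⟩, hp, hf, hg⟩

end Pool.Agent.Results.MP_602153_ag.NodalReduction
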