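import Pool.Agent.V8H73.EK.Pos

/-!
MP_602153_ag: a positive proportion of all hypersurfaces of degree `d ≥ 3` in the projective space
of any dimension at least two over the rational numbers, ordered by the size of their integral
coefficients, is smooth and has a regular projective flat model over the integers.

More precisely, let `F₀` be a form of degree `d` with integral coefficients which is good at the
primes up to `M`: for every prime number `p ≤ M` the scheme `F₀ = 0` is regular at its points over
`p`, or, after an integral change of coordinates, regular there except at one ordinary double point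
of the fibre over `p`. Then the proportion of the forms `G` such that `F₀ + (M!)² G` is smooth over
the rational numbers and its hypersurface has a regular projective flat model over the integers is
at least `1 - C / M`, with a constant `C` which depends only on `d` and the number of variables.
-/

set_option autoImplicit false

open AlgebraicGeometry CategoryTheory CategoryTheory.Limits MvPolynomial

open scoped NumberField

namespace Pool.Agent.Results.MP_602153_ag.PositiveProportion

/-- The polynomial in the variables `X j`, `j ≠ s`, obtained from `H` by setting `X s = 1`: the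
equation of the hypersurface `H = 0` in the chart `X s ≠ 0` of the projective space over `R`. -/
noncomputable def dehom {R : Type} [CommRing R] {m : ℕ} (s : Fin m) (H : MvPolynomial (Fin m) R) :
    MvPolynomial {j : Fin m // j ≠ s} R :=
  aeval (fun j => if h : j = s then 1 else X ⟨j, h⟩) H

/-- The ideal `Q` of the polynomial ring over `R` lies over `𝔭`. -/
def LiesAbove {R σ : Type} [CommRing R] (𝔭 : Ideal R) (Q : Ideal (MvPolynomial σ R)) : Prop :=
  ∀ r : R, C r ∈ Q ↔ r ∈ 𝔭

/-- For a prime `Q` of `A`, the element `f` is not in the square of the maximal ideal of the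
localization of `A` at `Q`. -/
def NotInSquare {A : Type} [CommRing A] (Q : Ideal A) (f : A) : Prop :=
  ∀ h, h ∉ Q → h * f ∉ Q ^ 2

/-- The scheme `H = 0` in the projective space over `R` is regular at its points over `𝔭`: for every
chart `s` and every prime `Q` of the polynomial ring of the chart lying over `𝔭` and containing the
equation, the equation is not in the square of the maximal ideal of the localization at `Q`. -/
def IsRegularAt {R : Type} [CommRing R] (𝔭 : Ideal R) {m : ℕ} (H : MvPolynomial (Fin m) R) :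
    Prop :=
  ∀ (s : Fin m) (Q : Ideal (MvPolynomial {j : Fin m // j ≠ s} R)), Q.IsPrime →
    LiesAbove 𝔭 Q → dehom s H ∈ Q → NotInSquare Q (dehom s H)

/-- The polynomial `H (1, x_0, ..., x_(m-1))` in `m` variables: the equation of `H = 0` in the chart
around the point `(1 : 0 : ... : 0)`. -/
noncomputable def firstChart {R : Type} [CommRing R] {m : ℕ} (H : MvPolynomial (Fin (m + 1)) R) :
    MvPolynomial (Fin m) R :=
  aeval (Fin.cases (motive := fun _ => MvPolynomial (Fin m) R) 1 (fun i => X i)) H

/-- The fibre over `𝔭` of the scheme `H = 0` has an ordinary double point at `(1 : 0 : ... : 0)`: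
modulo `𝔭` the equation in the chart around this point vanishes to the second order at the point,
and the determinant of its Hessian matrix at the point is not in `𝔭`. The scheme is regular at all
its other points over `𝔭`. -/
def IsNodalAt {R : Type} [CommRing R] (𝔭 : Ideal R) {m : ℕ} (H : MvPolynomial (Fin (m + 1)) R) :
    Prop :=
  coeff 0 (firstChart H) ∈ 𝔭 ∧
  (∀ i, coeff 0 (pderiv i (firstChart H)) ∈ 𝔭) ∧
  (Matrix.of fun i j => coeff 0 (pderiv i (pderiv j (firstChart H)))).det ∉ 𝔭 ∧
  ∀ (s : Fin (m + 1)) (Q : Ideal (MvPolynomial {j : Fin (m + 1) // j ≠ s} R)), Q.IsPrime →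
    LiesAbove 𝔭 Q → dehom s H ∈ Q → NotInSquare Q (dehom s H) ∨ (s = 0 ∧ ∀ j, X j ∈ Q)

/-- The partial derivatives of `G` have no common zero (over an algebraic closure) but the origin:
every variable has a power in the ideal they generate. -/
def IsSmooth {K : Type} [Field K] {m : ℕ} (G : MvPolynomial (Fin m) K) : Prop :=
  ∀ i, X i ∈ (Ideal.span (Set.range fun j => pderiv j G)).radical

/-- The form obtained from `F` by the linear change of coordinates with the matrix `T`. -/
noncomputable def change {R : Type} [CommRing R] {m : ℕ} (T : Matrix (Fin m) (Fin m) R)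
    (F : MvPolynomial (Fin m) R) : MvPolynomial (Fin m) R :=
  aeval (fun i => ∑ j, C (T i j) * X j) F

/-- The scheme `F = 0` over the integers is regular at its points over `p` or, after a change of
coordinates over the integers, regular there except at one ordinary double point of the fibre over
`p`. -/
def IsGoodAt (p : ℕ) {m : ℕ} (F : MvPolynomial (Fin (m + 1)) ℤ) : Prop :=
  IsRegularAt (Ideal.span {(p : ℤ)}) F ∨
    ∃ T T' : Matrix (Fin (m + 1)) (Fin (m + 1)) ℤ, T * T' = 1 ∧
      IsNodalAt (Ideal.span {(p : ℤ)}) (change T F)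

/-- The dimensions of the local rings of `A` equal the dimensions of their cotangent spaces. -/
def HasRegularLocalRings (A : Type) [CommRing A] : Prop :=
  ∀ p : PrimeSpectrum A, ringKrullDim (Localization.AtPrime p.asIdeal) =
    (((Module.finrank (IsLocalRing.ResidueField (Localization.AtPrime p.asIdeal))
      (IsLocalRing.CotangentSpace (Localization.AtPrime p.asIdeal)) : ℕ) : ℕ∞) : WithBot ℕ∞)

/-- The local rings of the locally Noetherian scheme `Y` are regular. -/
def IsRegularScheme (Y : Scheme.{0}) : Prop :=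
  IsLocallyNoetherian Y ∧
  ∀ U : Y.affineOpens, HasRegularLocalRings (Y.presheaf.obj (Opposite.op U.1))

/-- `Y` is projective over the integers. -/
def IsProjectiveOverInt (Y : Scheme.{0}) : Prop :=
  ∃ (A : Type) (_ : CommRing A) (𝒜 : ℕ → Submodule ℤ A) (_ : GradedAlgebra 𝒜),
    (∀ a ∈ 𝒜 0, ∃ n : ℤ, (n : A) = a) ∧
    (∃ s : Finset A, (∀ a ∈ s, a ∈ 𝒜 1) ∧ Algebra.adjoin ℤ (s : Set A) = ⊤) ∧
    Nonempty (Y ≅ Proj 𝒜)

/-- The generic fibre of `Y` is isomorphic to `V`. -/
def HasGenericFibre (Y V : Scheme.{0}) : Prop :=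
  Nonempty (pullback (specZIsTerminal.from Y)
      (specZIsTerminal.from (Spec (CommRingCat.of ℚ))) ≅ V)

/-- `Y` is an integral regular locally Noetherian scheme, projective and flat over the integers,
with generic fibre `V`. -/
def IsRegularProjectiveFlatModel (V Y : Scheme.{0}) : Prop :=
  IsIntegral Y ∧ IsRegularScheme Y ∧ IsProjectiveOverInt Y ∧ Flat (specZIsTerminal.from Y) ∧
    HasGenericFibre Y V

/-- Every scheme `V` isomorphic to the hypersurface `Proj (K[X] / (G))`, viewed over the rational
numbers, has a regular projective flat model over the integers. -/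
def HypersurfaceHasModel {K : Type} [Field K] {m : ℕ} (G : MvPolynomial (Fin m) K) :
    Prop :=
  ∀ (B : Type) [CommRing B] [Algebra K B]
    (π : MvPolynomial (Fin m) K →ₐ[K] B), Function.Surjective π →
    RingHom.ker π = Ideal.span {G} →
  ∀ (ℬ : ℕ → Submodule K B) [GradedAlgebra ℬ],
    (∀ d, ℬ d = (homogeneousSubmodule (Fin m) K d).map π.toLinearMap) →
  ∀ (V : Scheme.{0}), Nonempty (V ≅ Proj ℬ) → ∃ Y, IsRegularProjectiveFlatModel V Y

/-- The form with rational coefficients given by a form with integral coefficients. -/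
noncomputable def overQ {m : ℕ} (F : MvPolynomial (Fin m) ℤ) : MvPolynomial (Fin m) ℚ :=
  map (Int.castRingHom ℚ) F

/-- The form `F` is smooth over the rational numbers and its hypersurface has a regular projective
flat model over the integers. -/
def IsModelled {m : ℕ} (F : MvPolynomial (Fin m) ℤ) : Prop :=
  IsSmooth (overQ F) ∧ HypersurfaceHasModel (overQ F)

/-- The forms of degree `d` in `m` variables with integral coefficients of absolute value at most
`H`. -/
def boundedForms (m d H : ℕ) : Set (MvPolynomial (Fin m) ℤ) :=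
  {F | F.IsHomogeneous d ∧ ∀ e, |coeff e F| ≤ H}

theorem isModelled_of_good (n d : ℕ) (hd : 3 ≤ d) (F : MvPolynomial (Fin (n + 3)) ℤ)
    (hF : F.IsHomogeneous d) (h : Pool.Agent.V8H73.EK.GoodF (n := n + 1) F) : IsModelled F := by
  refine ⟨h.1, ?_⟩
  intro B _ _ π hπ hker ℬ _ hℬ V hV
  obtain ⟨Y, hi, hn, hr, hp, hf, hg⟩ :=
    Pool.Agent.V8H73.ND.model_node (n := n + 1) (by omega) (overQ F) d (by omega) (hF.map _)
      h.1 h.2 π hπ hker ℬ hℬ V hV
  exact ⟨Y, hi, ⟨hn, hr⟩, hp, hf, hg⟩

theorem goodAt_of_isGoodAt (p : ℕ) {m : ℕ} (F : MvPolynomial (Fin (m + 1)) ℤ)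
    (h : IsGoodAt p F) : Pool.Agent.V8H73.EK.GoodAt (Ideal.span {(p : ℤ)}) F := by
  rcases h with h | ⟨T, T', hT, h1, h2, h3, h4⟩
  · exact Or.inl h
  · refine Or.inr ⟨T, T', hT, h1, h2, h3, ?_⟩
    intro s Q hQ hQ1 hQ2
    rcases h4 s Q hQ hQ1 hQ2 with h5 | h5
    · exact Or.inr (Or.inl h5)
    · exact Or.inr (Or.inr h5)

/-- For `d ≥ 3` a positive proportion of all forms of degree `d` in `n + 3` variables with integral
coefficients defines smooth hypersurfaces over the rational numbers with regular projective flat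
models over the integers; in the residue classes modulo `(M!)²` of the forms which are good at the
primes up to `M` the proportion is at least `1 - C / M`. -/
theorem result (n d : ℕ) (hd : 3 ≤ d) :
    (∃ c : ℝ, 0 < c ∧ ∃ H₀ : ℕ, ∀ H : ℕ, H₀ ≤ H →
      c * ((boundedForms (n + 3) d H).ncard : ℝ) ≤
        ({F | F ∈ boundedForms (n + 3) d H ∧ IsModelled F}.ncard : ℝ)) ∧
    (∃ c : ℝ, ∀ M : ℕ, 1 ≤ M → ∀ F₀ : MvPolynomial (Fin (n + 3)) ℤ, F₀.IsHomogeneous d →
      (∀ p : ℕ, p.Prime → p ≤ M → IsGoodAt (m := n + 2) p F₀) →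
      ∀ ε : ℝ, 0 < ε → ∃ H₀ : ℕ, ∀ H : ℕ, H₀ ≤ H →
      (1 - c / M - ε) * ((boundedForms (n + 3) d H).ncard : ℝ) ≤
        ({G | G ∈ boundedForms (n + 3) d H ∧
          IsModelled (F₀ + C ((M.factorial : ℤ) ^ 2) * G)}.ncard : ℝ)) := by
  have hfin : ∀ H, (boundedForms (n + 3) d H).Finite := fun H =>
    Pool.Agent.V8H73.EK.forms_finite (k := n + 3) (d := d) H
  refine ⟨?_, ?_⟩
  · obtain ⟨c, hc, H₀, h⟩ := Pool.Agent.V8H73.EK.part1 (n + 1) d hd
    refine ⟨c, hc, H₀, fun H hH => (h H hH).trans ?_⟩
    have h1 : {F | F ∈ Pool.Agent.V8H73.EK.forms (n + 1 + 2) d H ∧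
        Pool.Agent.V8H73.EK.GoodF F}.ncard ≤
        {F | F ∈ boundedForms (n + 3) d H ∧ IsModelled F}.ncard :=
      Set.ncard_le_ncard (fun F hF => ⟨hF.1, isModelled_of_good n d hd F hF.1.1 hF.2⟩)
        ((hfin H).subset fun F hF => hF.1)
    exact_mod_cast h1
  · obtain ⟨c, hc, h⟩ := Pool.Agent.V8H73.EK.part2 (n + 1) d hd
    refine ⟨c, fun M hM F₀ hF₀ hgood ε hε => ?_⟩
    obtain ⟨H₀, h⟩ := h M hM F₀ hF₀ (fun 𝔭 hp h0 ⟨p, hpp, hpM, hp𝔭⟩ =>
      Pool.Agent.V8H73.EK.goodAt_int F₀ p hpp (goodAt_of_isGoodAt p F₀ (hgood p hpp hpM)) 𝔭 hp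
        hp𝔭) ε hε
    refine ⟨H₀, fun H hH => (h H hH).trans ?_⟩
    have h1 : {G | G ∈ Pool.Agent.V8H73.EK.forms (n + 1 + 2) d H ∧
        Pool.Agent.V8H73.EK.GoodF (F₀ + C ((M.factorial : ℤ) ^ 2) * G)}.ncard ≤
        {G | G ∈ boundedForms (n + 3) d H ∧
          IsModelled (F₀ + C ((M.factorial : ℤ) ^ 2) * G)}.ncard := by
      refine Set.ncard_le_ncard (fun G hG => ⟨hG.1, isModelled_of_good n d hd _ ?_ hG.2⟩)
        ((hfin H).subset fun F hF => hF.1)
      refine hF₀.add ?_
      have h5 := (isHomogeneous_C (Fin (n + 3)) ((M.factorial : ℤ) ^ 2)).mul hG.1.1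
      rwa [zero_add] at h5
    exact_mod_cast h1

end Pool.Agent.Results.MP_602153_ag.PositiveProportion
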